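import Pool.Agent.Helper76.S7.StC

/-!
# Project W7, module DimE: dimension of subE7
-/

set_option autoImplicit false

namespace Pool.Agent.Helper37.S7

open Pool.Agent.Helper76.S7 Pool.Agent.Helper14.W5

section lin

variable {W W' : Type} [AddCommGroup W] [Module ℂ W] [FiniteDimensional ℂ W] [AddCommGroup W']
  [Module ℂ W']

private theorem rn (f : W →ₗ[ℂ] W') (V : Submodule ℂ W) :
    Module.finrank ℂ (V.map f) + Module.finrank ℂ ↥(V ⊓ LinearMap.ker f) =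
      Module.finrank ℂ V := by
  have h := LinearMap.finrank_range_add_finrank_ker (f.domRestrict V)
  rw [LinearMap.range_domRestrict, LinearMap.ker_domRestrict] at h
  have h2 : Module.finrank ℂ ↥((LinearMap.ker f).comap V.subtype) =
      Module.finrank ℂ ↥(V ⊓ LinearMap.ker f) := by
    rw [← Submodule.map_comap_subtype, Submodule.finrank_map_subtype_eq]
  rw [h2] at h
  exact h

end lin

section lin2

variable {W W' : Type} [AddCommGroup W] [Module ℂ W] [FiniteDimensional ℂ W] [AddCommGroup W']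
  [Module ℂ W'] [FiniteDimensional ℂ W']

private theorem fr_prod (V : Submodule ℂ W) (V' : Submodule ℂ W') :
    Module.finrank ℂ ↥(V.prod V') = Module.finrank ℂ V + Module.finrank ℂ V' := by
  have h1 : V.prod V' = LinearMap.range (V.subtype.prodMap V'.subtype) := by
    rw [LinearMap.range_prodMap, Submodule.range_subtype, Submodule.range_subtype]
  rw [h1, LinearMap.finrank_range_of_inj, Module.finrank_prod]
  rintro ⟨a, b⟩ ⟨a', b'⟩ h
  simp only [LinearMap.prodMap_apply, Submodule.subtype_apply, Prod.mk.injEq,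
    SetLike.coe_eq_coe] at h
  rw [h.1, h.2]

end lin2

/-- `4` times the projection onto `inv7 r r' e e'` -/
private def P {m : ℕ} (r r' : Pt m → Pt m) (e e' : ℂ) : (Pt m → ℂ) →ₗ[ℂ] (Pt m → ℂ) where
  toFun F p := F p + e * F (r p) + e' * F (r' p) + e * e' * F (r (r' p))
  map_add' F F' := by funext p; simp only [Pi.add_apply]; ring
  map_smul' c F := by funext p; simp only [Pi.smul_apply, smul_eq_mul, RingHom.id_apply]; ring

private theorem P_apply {m : ℕ} (r r' : Pt m → Pt m) (e e' : ℂ) (F : Pt m → ℂ) (p : Pt m) :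
    P r r' e e' F p = F p + e * F (r p) + e' * F (r' p) + e * e' * F (r (r' p)) := rfl

/-- `6` times the projection onto `inv7 r r' 1 1` -/
private def S6 {m : ℕ} (r r' : Pt m → Pt m) : (Pt m → ℂ) →ₗ[ℂ] (Pt m → ℂ) where
  toFun F p := F p + F (r p) + F (r' p) + F (r (r' p)) + F (r' (r p)) + F (r (r' (r p)))
  map_add' F F' := by funext p; simp only [Pi.add_apply]; ring
  map_smul' c F := by funext p; simp only [Pi.smul_apply, smul_eq_mul, RingHom.id_apply]; ring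

private theorem S6_apply {m : ℕ} (r r' : Pt m → Pt m) (F : Pt m → ℂ) (p : Pt m) :
    S6 r r' F p = F p + F (r p) + F (r' p) + F (r (r' p)) + F (r' (r p)) + F (r (r' (r p))) := rfl

private theorem pw0 {m : ℕ} (hm : 1 ≤ m) : (7 : ZMod (7 ^ m)) * 7 ^ (m - 1) = 0 := by
  rw [← pow_succ', Nat.sub_add_cancel hm]
  have h3 := ZMod.natCast_self (7 ^ m)
  push_cast at h3
  exact h3

private theorem red {m : ℕ} (hm : 1 ≤ m) (t : ℤ) :
    (t : ZMod (7 ^ m)) * 7 ^ (m - 1) = ((t : ZMod 7).val : ZMod (7 ^ m)) * 7 ^ (m - 1) := by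
  have h1 : ((t : ZMod 7).val : ℤ) = t % 7 := by
    rw [ZMod.val_intCast]
    norm_num
  have h2 : (((t : ZMod 7).val : ℕ) : ZMod (7 ^ m)) = ((t % 7 : ℤ) : ZMod (7 ^ m)) := by
    rw [← h1]
    push_cast
    rfl
  rw [h2]
  have h3 : t = t % 7 + 7 * (t / 7) := (Int.emod_add_mul_ediv t 7).symm
  have h4 : (t : ZMod (7 ^ m)) = ((t % 7 : ℤ) : ZMod (7 ^ m)) + 7 * ((t / 7 : ℤ) : ZMod (7 ^ m)) := by
    conv_lhs => rw [h3]
    push_cast
    ring
  rw [h4]
  linear_combination ((t / 7 : ℤ) : ZMod (7 ^ m)) * pw0 hm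

private theorem sum_zmod (g : ℕ → ℂ) :
    ∑ i ∈ Finset.range 7, g i = ∑ z : ZMod 7, g z.val := by
  have : ∀ h : ZMod 7 → ℂ, ∑ z : ZMod 7, h z = ∑ i : Fin 7, h i := fun h => rfl
  rw [Finset.sum_range, this]
  rfl

private theorem sum_s {m : ℕ} (hm : 1 ≤ m) (s : ℤ) (hs : ¬ (7 : ℤ) ∣ s)
    (g : ZMod (7 ^ m) → ℂ) :
    ∑ i ∈ Finset.range 7, g (s * ((i : ZMod (7 ^ m)) * 7 ^ (m - 1))) =
      ∑ i ∈ Finset.range 7, g ((i : ZMod (7 ^ m)) * 7 ^ (m - 1)) := by
  have hf : Fact (Nat.Prime 7) := ⟨by norm_num⟩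
  have hs0 : (s : ZMod 7) ≠ 0 := by
    intro h
    exact hs ((ZMod.intCast_zmod_eq_zero_iff_dvd s 7).1 h)
  rw [sum_zmod (fun i => g (s * ((i : ZMod (7 ^ m)) * 7 ^ (m - 1)))),
    sum_zmod (fun i => g ((i : ZMod (7 ^ m)) * 7 ^ (m - 1)))]
  refine Fintype.sum_equiv (Equiv.mulLeft₀ (s : ZMod 7) hs0) _ _ fun z => ?_
  have h1 := red hm (s * (z.val : ℤ))
  have h2 : ((s * (z.val : ℤ) : ℤ) : ZMod 7) = (s : ZMod 7) * z := by
    push_cast
    rw [ZMod.natCast_zmod_val]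
  rw [h2] at h1
  change g (s * ((z.val : ZMod (7 ^ m)) * 7 ^ (m - 1))) =
    g ((((s : ZMod 7) * z).val : ZMod (7 ^ m)) * 7 ^ (m - 1))
  rw [← h1]
  congr 1
  push_cast
  ring

private theorem anti_s {m : ℕ} (hm : 1 ≤ m) {F : Pt m → ℂ} (hF : F ∈ anti7 m) (s : ℤ)
    (hs : ¬ (7 : ℤ) ∣ s) (x y : ZMod (7 ^ m)) :
    ∑ i ∈ Finset.range 7, F (x + s * (i * 7 ^ (m - 1)), y) = 0 ∧
      ∑ i ∈ Finset.range 7, F (x, y + s * (i * 7 ^ (m - 1))) = 0 := by
  obtain ⟨h1, h2⟩ := hF (x, y)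
  constructor
  · rw [sum_s hm s hs (fun t => F (x + t, y))]
    exact h1
  · rw [sum_s hm s hs (fun t => F (x, y + t))]
    exact h2

private theorem dv_step {m : ℕ} (hm : 1 ≤ m) {s : ℤ} {φ : ZMod (7 ^ m) → ZMod (7 ^ m)}
    (h : Dv s φ) (x : ZMod (7 ^ m)) (i : ℕ) :
    φ (x + i * 7 ^ (m - 1)) = φ x + s * (i * 7 ^ (m - 1)) := by
  have h1 := h (m - 1) (x + i * 7 ^ (m - 1)) x ⟨i, by ring⟩
  have h2 : (7 : ZMod (7 ^ m)) ^ (m - 1 + 1) = 0 := by
    rw [Nat.sub_add_cancel hm]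
    have h3 := ZMod.natCast_self (7 ^ m)
    push_cast at h3
    exact h3
  rw [h2, zero_dvd_iff] at h1
  linear_combination h1

private theorem anti_comp {m n : ℕ} (hm : 1 ≤ m) {r : Pt m → Pt m} (hr : Ty n r) {F : Pt m → ℂ}
    (hF : F ∈ anti7 m) : (fun p => F (r p)) ∈ anti7 m := by
  rcases hr with ⟨_, s, s', φ, φ', hs, _, hs', _, hφ, hφ', hr⟩ | ⟨_, s, s', ψ, ψ', hs, hs', hψ, hψ', hr⟩
  · intro p
    simp only [hr, dv_step hm hφ, dv_step hm hφ']
    exact ⟨(anti_s hm hF s hs (φ p.1) (φ' p.2)).1, (anti_s hm hF s' hs' (φ p.1) (φ' p.2)).2⟩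
  · intro p
    simp only [hr, dv_step hm hψ, dv_step hm hψ']
    exact ⟨(anti_s hm hF s' hs' (ψ p.2) (ψ' p.1)).2, (anti_s hm hF s hs (ψ p.2) (ψ' p.1)).1⟩

private theorem P_mem {m n n' : ℕ} (hm : 1 ≤ m) {r r' : Pt m → Pt m} (hk : Kl r r') (hr : Ty n r)
    (hr' : Ty n' r') {e e' : ℂ} (he : e * e = 1) (he' : e' * e' = 1) {F : Pt m → ℂ}
    (hF : F ∈ anti7 m) : P r r' e e' F ∈ inv7 r r' e e' := by
  obtain ⟨k1, k2, k3⟩ := hk
  have h1 : (fun p => F (r p)) ∈ anti7 m := anti_comp hm hr hF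
  have h2 : (fun p => F (r' p)) ∈ anti7 m := anti_comp hm hr' hF
  have h3 : (fun p => F (r (r' p))) ∈ anti7 m := anti_comp hm hr' h1
  refine ⟨?_, fun p => ⟨?_, ?_⟩⟩
  · have h4 : P r r' e e' F = F + e • (fun p => F (r p)) + e' • (fun p => F (r' p)) +
        (e * e') • (fun p => F (r (r' p))) := by
      funext p
      simp only [P_apply, Pi.add_apply, Pi.smul_apply, smul_eq_mul]
    rw [h4]
    exact Submodule.add_mem _ (Submodule.add_mem _ (Submodule.add_mem _ hF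
      (Submodule.smul_mem _ _ h1)) (Submodule.smul_mem _ _ h2)) (Submodule.smul_mem _ _ h3)
  · simp only [P_apply]
    rw [k1 p, ← k3 p, k1 (r' p)]
    linear_combination (-(F (r p)) - e' * F (r (r' p))) * he
  · simp only [P_apply]
    rw [k2 p]
    linear_combination (-(F (r' p)) - e * F (r (r' p))) * he'

private theorem P_inv {m : ℕ} {r r' : Pt m → Pt m} {e e' : ℂ} (he : e * e = 1)
    (he' : e' * e' = 1) {F : Pt m → ℂ} (hF : F ∈ inv7 r r' e e') : P r r' e e' F = (4 : ℂ) • F := by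
  obtain ⟨_, h⟩ := hF
  funext p
  simp only [P_apply, Pi.smul_apply, smul_eq_mul]
  rw [(h (r' p)).1, (h p).1, (h p).2]
  linear_combination (2 * F p) * he + (F p) * he' + F p * e * e * he'

private theorem P_map {m n n' : ℕ} (hm : 1 ≤ m) {r r' : Pt m → Pt m} (hk : Kl r r') (hr : Ty n r)
    (hr' : Ty n' r') {e e' : ℂ} (he : e * e = 1) (he' : e' * e' = 1) :
    (anti7 m).map (P r r' e e') = inv7 r r' e e' := by
  apply le_antisymm
  · rintro _ ⟨F, hF, rfl⟩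
    exact P_mem hm hk hr hr' he he' hF
  · intro F hF
    refine ⟨(4 : ℂ)⁻¹ • F, Submodule.smul_mem _ _ hF.1, ?_⟩
    rw [map_smul, P_inv he he' hF, smul_smul, inv_mul_cancel₀ (by norm_num), one_smul]

private theorem S6_map {m n n' : ℕ} (hm : 1 ≤ m) {r r' : Pt m → Pt m} (hd : Dh r r')
    (hr : Ty n r) (hr' : Ty n' r') : (anti7 m).map (S6 r r') = inv7 r r' 1 1 := by
  obtain ⟨k1, k2, k3⟩ := hd
  apply le_antisymm
  · rintro _ ⟨F, hF, rfl⟩
    have h1 : (fun p => F (r p)) ∈ anti7 m := anti_comp hm hr hF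
    have h2 : (fun p => F (r' p)) ∈ anti7 m := anti_comp hm hr' hF
    have h3 : (fun p => F (r (r' p))) ∈ anti7 m := anti_comp hm hr' h1
    have h4 : (fun p => F (r' (r p))) ∈ anti7 m := anti_comp hm hr h2
    have h5 : (fun p => F (r (r' (r p)))) ∈ anti7 m := anti_comp hm hr h3
    refine ⟨?_, fun p => ⟨?_, ?_⟩⟩
    · have h6 : S6 r r' F = F + (fun p => F (r p)) + (fun p => F (r' p)) +
          (fun p => F (r (r' p))) + (fun p => F (r' (r p))) + (fun p => F (r (r' (r p)))) := by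
        funext p
        simp only [S6_apply, Pi.add_apply]
      rw [h6]
      exact Submodule.add_mem _ (Submodule.add_mem _ (Submodule.add_mem _ (Submodule.add_mem _
        (Submodule.add_mem _ hF h1) h2) h3) h4) h5
    · simp only [S6_apply]
      rw [k1 p]
      ring
    · simp only [S6_apply]
      rw [k2 p, ← k3 p, k1 (r' (r p))]
      ring
  · intro F hF
    refine ⟨(6 : ℂ)⁻¹ • F, Submodule.smul_mem _ _ hF.1, ?_⟩
    have h6 : S6 r r' F = (6 : ℂ) • F := by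
      obtain ⟨_, h⟩ := hF
      funext p
      simp only [S6_apply, Pi.smul_apply, smul_eq_mul]
      rw [(h (r' (r p))).1, (h (r p)).2, (h (r' p)).1, (h p).1, (h p).2]
      ring
    rw [map_smul, h6, smul_smul, inv_mul_cancel₀ (by norm_num), one_smul]

private theorem ker_dim {m n n' n'' : ℕ} (hk : S7DimK) (hm : 1 ≤ m) {r r' : Pt m → Pt m}
    (hkl : Kl r r') (hr : Ty n r) (hr' : Ty n' r') (hr'' : Ty n'' (fun p => r (r' p)))
    (e e' : ℤ) (he : e = 1 ∨ e = -1) (he' : e' = 1 ∨ e' = -1) :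
    4 * (Module.finrank ℂ ↥(anti7 m ⊓ LinearMap.ker (P r r' (e : ℂ) (e' : ℂ))) : ℤ) =
      108 * 49 ^ (m - 1) - (e * n + e' * n' + e * e' * n'') * (6 * 7 ^ (m - 1)) := by
  have h1 := (hk m hm).1
  have h2 := (hk m hm).2.2.1 r r' n n' n'' e e' hkl hr hr' hr'' he he'
  have hee : (e : ℂ) * (e : ℂ) = 1 := by rcases he with rfl | rfl <;> norm_num
  have hee' : (e' : ℂ) * (e' : ℂ) = 1 := by rcases he' with rfl | rfl <;> norm_num
  have h3 := rn (P r r' (e : ℂ) (e' : ℂ)) (anti7 m)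
  rw [P_map hm hkl hr hr' hee hee', h1] at h3
  have h4 : (Module.finrank ℂ (inv7 r r' (e : ℂ) (e' : ℂ)) : ℤ) +
      (Module.finrank ℂ ↥(anti7 m ⊓ LinearMap.ker (P r r' (e : ℂ) (e' : ℂ))) : ℤ) =
      36 * 49 ^ (m - 1) := by exact_mod_cast h3
  linarith

theorem hDimE (h1 : S7Typ) (h2 : S7DimK) (h3 : S7Split) : S7DimE := by
  intro m hm
  obtain ⟨⟨a1, a2, a3, a4⟩, ⟨b1, b2⟩, ⟨e1, e2⟩, ⟨f1, f2, f3, f4, f5, f6⟩, ⟨g1, g2, g3, g4⟩, _⟩ := h1 m
  -- the four spaces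
  set V1 := anti7 m ⊓ LinearMap.ker (P (ng : Pt m → Pt m) sw ((-1 : ℤ) : ℂ) ((1 : ℤ) : ℂ)) with hV1
  set V3 := anti7 m ⊓ LinearMap.ker (S6 (c2 : Pt m → Pt m) c3) with hV3
  set VM := inv1 (c1 : Pt m → Pt m) ((-1 : ℤ) : ℂ) with hVM
  set VD := inv1 (dl : Pt m → Pt m) ((1 : ℤ) : ℂ) with hVD
  have d1 := ker_dim h2 hm a1 a2 a3 a4 (-1) 1 (Or.inr rfl) (Or.inl rfl)
  rw [← hV1] at d1
  have dM := (h2 m hm).2.1 c1 (-1) b1 b2 (Or.inr rfl)
  rw [← hVM] at dM
  have dD := (h2 m hm).2.1 dl 1 e1 e2 (Or.inl rfl)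
  rw [← hVD] at dD
  have d3 : (Module.finrank ℂ V3 : ℤ) = 30 * 49 ^ (m - 1) - 3 * 7 ^ (m - 1) := by
    have t1 := (h2 m hm).1
    have t2 := (h2 m hm).2.2.2 c2 c3 f1 f2 f3 f4 f5 f6
    have t3 := rn (S6 (c2 : Pt m → Pt m) c3) (anti7 m)
    rw [S6_map hm f1 f2 f3, ← hV3, t1, t2] at t3
    have t4 : (6 * 49 ^ (m - 1) + 3 * 7 ^ (m - 1) : ℤ) + (Module.finrank ℂ V3 : ℤ) =
        36 * 49 ^ (m - 1) := by exact_mod_cast t3
    linarith
  have d4 := (h2 m hm).2.2.1 (dR 1) c4 0 1 1 (-1) 1 g1 g2 g3 g4 (Or.inr rfl) (Or.inl rfl)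
  set Q : ((Pt m → ℂ) × (Pt m → ℂ)) × ((Pt m → ℂ) × (Pt m → ℂ)) →ₗ[ℂ] (Pt m → ℂ) :=
    (P (dR 1 : Pt m → Pt m) c4 ((-1 : ℤ) : ℂ) ((1 : ℤ) : ℂ)).comp
      (LinearMap.coprod (LinearMap.coprod LinearMap.id LinearMap.id)
        (LinearMap.coprod LinearMap.id LinearMap.id)) with hQ
  have hQa : ∀ F, Q F = P (dR 1 : Pt m → Pt m) c4 ((-1 : ℤ) : ℂ) ((1 : ℤ) : ℂ)
      ((F.1.1 + F.1.2) + (F.2.1 + F.2.2)) := fun _ => rfl
  have hmap : ((V1.prod VM).prod (VD.prod V3)).map Q =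
      inv7 (dR 1 : Pt m → Pt m) c4 ((-1 : ℤ) : ℂ) ((1 : ℤ) : ℂ) := by
    apply le_antisymm
    · rintro _ ⟨F, hF, rfl⟩
      rw [hQa]
      exact P_mem hm g1 g2 g3 (by norm_num) (by norm_num)
        (Submodule.add_mem _ (Submodule.add_mem _ hF.1.1.1 hF.1.2.1)
          (Submodule.add_mem _ hF.2.1.1 hF.2.2.1))
    · intro φ hφ
      obtain ⟨f, hf, l, hl, hfn, hld, hfl⟩ := h3 1 m hm φ hφ.1
      refine ⟨(((4 : ℂ)⁻¹ • f, 0), (0, 0)), ⟨⟨Submodule.smul_mem _ _ ⟨hf, ?_⟩,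
        Submodule.zero_mem _⟩, Submodule.zero_mem _, Submodule.zero_mem _⟩, ?_⟩
      · rw [SetLike.mem_coe, LinearMap.mem_ker]
        funext p
        simp only [P_apply, Pi.zero_apply]
        rw [hfn p, hfn (sw p)]
        push_cast
        ring
      · rw [hQa, add_zero, add_zero, add_zero, map_smul]
        have hPl : P (dR 1 : Pt m → Pt m) c4 ((-1 : ℤ) : ℂ) ((1 : ℤ) : ℂ) l = 0 := by
          funext p
          simp only [P_apply, Pi.zero_apply]
          rw [hld p, hld (c4 p)]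
          push_cast
          ring
        have hsum : φ = f + l := funext fun p => (hfl p).symm
        have hPφ := P_inv (r := (dR 1 : Pt m → Pt m)) (r' := c4) (e := ((-1 : ℤ) : ℂ))
          (e' := ((1 : ℤ) : ℂ)) (by norm_num) (by norm_num) hφ
        have hPf : P (dR 1 : Pt m → Pt m) c4 ((-1 : ℤ) : ℂ) ((1 : ℤ) : ℂ) f = (4 : ℂ) • φ := by
          rw [← hPφ]
          conv_rhs => rw [hsum]
          rw [map_add, hPl, add_zero]
        rw [hPf, smul_smul, inv_mul_cancel₀ (by norm_num), one_smul]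
  have hker : (V1.prod VM).prod (VD.prod V3) ⊓ LinearMap.ker Q = subE7 m := by
    ext F
    constructor
    · rintro ⟨⟨⟨⟨h1, h2⟩, ⟨h3, h4⟩⟩, ⟨⟨h5, h6⟩, ⟨h7, h8⟩⟩⟩, h9⟩
      rw [SetLike.mem_coe, LinearMap.mem_ker] at h2 h8
      rw [SetLike.mem_coe, LinearMap.mem_ker, hQa] at h9
      refine ⟨⟨h1, h3, h5, h7⟩, fun p => ⟨?_, ?_, ?_, ?_, ?_⟩⟩
      · have := congrFun h2 p
        simp only [P_apply, Pi.zero_apply] at this
        push_cast at this
        linear_combination this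
      · have := h4 p
        push_cast at this
        linear_combination this
      · have := h6 p
        push_cast at this
        linear_combination this
      · have := congrFun h8 p
        simp only [S6_apply, Pi.zero_apply] at this
        linear_combination this
      · have := congrFun h9 p
        simp only [P_apply, Pi.zero_apply, Pi.add_apply] at this
        push_cast at this
        linear_combination this
    · rintro ⟨⟨h1, h3, h5, h7⟩, h⟩
      refine ⟨⟨⟨⟨h1, ?_⟩, ⟨h3, fun p => ?_⟩⟩, ⟨⟨h5, fun p => ?_⟩, ⟨h7, ?_⟩⟩⟩, ?_⟩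
      · rw [SetLike.mem_coe, LinearMap.mem_ker]
        funext p
        simp only [P_apply, Pi.zero_apply]
        push_cast
        linear_combination (h p).1
      · push_cast
        linear_combination (h p).2.1
      · push_cast
        linear_combination (h p).2.2.1
      · rw [SetLike.mem_coe, LinearMap.mem_ker]
        funext p
        simp only [S6_apply, Pi.zero_apply]
        linear_combination (h p).2.2.2.1
      · rw [SetLike.mem_coe, LinearMap.mem_ker, hQa]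
        funext p
        simp only [P_apply, Pi.zero_apply, Pi.add_apply]
        push_cast
        linear_combination (h p).2.2.2.2
  have h6 := rn Q ((V1.prod VM).prod (VD.prod V3))
  rw [hmap, hker, fr_prod, fr_prod, fr_prod] at h6
  have h7 : (Module.finrank ℂ (inv7 (dR 1 : Pt m → Pt m) c4 ((-1 : ℤ) : ℂ) ((1 : ℤ) : ℂ)) : ℤ) +
      (Module.finrank ℂ (subE7 m) : ℤ) = ((Module.finrank ℂ V1 : ℤ) + (Module.finrank ℂ VM : ℤ)) +
        ((Module.finrank ℂ VD : ℤ) + (Module.finrank ℂ V3 : ℤ)) := by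
    exact_mod_cast h6
  have h8 : 3 * 7 ^ (m - 1) ≤ 84 * 49 ^ (m - 1) := by
    have : (7 : ℕ) ^ (m - 1) ≤ 49 ^ (m - 1) := Nat.pow_le_pow_left (by norm_num) _
    omega
  zify [h8]
  push_cast at d1 dM dD d4
  linarith

end Pool.Agent.Helper37.S7
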